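import Pool.Agent.Q237.PD.Prs
import Pool.Agent.Q211.PD.Lat

/-! # Project PD: independence of the parities, renewal bound for near visits -/

set_option autoImplicit false

namespace Pool.Agent.Q26.PD

open Finset
open Pool.Agent.H499R2.ND Pool.Agent.H320R2.PD Pool.Agent.Y856.PD Pool.Agent.Q74.PD
open Pool.Agent.Q204.PDP (oc oc_emod oc_le oc_add oc_period sum_oc iter_affine)
open Pool.Agent.Q237.PD (iter_congr sum_affine sum_range_two_mul)

/-- `f` has period `2 ^ n` -/
def Per (n : ℕ) (f : ℤ → ℝ) : Prop := ∀ x y : ℤ, (2 : ℤ) ^ n ∣ x - y → f x = f y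

theorem Per.mono {n m : ℕ} (h : n ≤ m) {f : ℤ → ℝ} (hf : Per n f) : Per m f :=
  fun x y hxy => hf x y ((pow_dvd_pow 2 h).trans hxy)

theorem Per.mul {n : ℕ} {f g : ℤ → ℝ} (hf : Per n f) (hg : Per n g) : Per n (fun x => f x * g x) :=
  fun x y hxy => by
    change f x * g x = f y * g y
    rw [hf x y hxy, hg x y hxy]

theorem Per.iter {d : ℤ} (hd : Odd d) {j : ℕ} {g : ℤ → ℝ} (hg : Per j g) (i : ℕ) :
    Per (i + j) (fun x => g ((Td d)^[i] x)) := by
  intro x y hxy
  refine hg _ _ ?_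
  rw [add_comm] at hxy
  exact iter_congr hd j i x y hxy

/-- independence of the first `i` parities and the next `j` -/
theorem indep {d : ℤ} (hd : Odd d) (j : ℕ) (g : ℤ → ℝ) (hg : Per j g) : ∀ (i : ℕ) (f : ℤ → ℝ), Per i f →
    ∑ r ∈ range (2 ^ (i + j)), f r * g ((Td d)^[i] r) =
      (∑ r ∈ range (2 ^ i), f r) * ∑ s ∈ range (2 ^ j), g s := by
  intro i
  induction i with
  | zero =>
    intro f hf
    have h0 : ∀ r : ℤ, f r = f 0 := fun r => hf r 0 (by simp)
    simp only [zero_add, Function.iterate_zero, id, pow_zero, range_one, sum_singleton, Nat.cast_zero]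
    rw [mul_sum]
    exact sum_congr rfl fun r _ => by rw [h0 r]
  | succ i ih =>
    intro f hf
    obtain ⟨t, ht⟩ := id hd
    obtain ⟨a, b, hab⟩ : IsCoprime ((2 : ℤ) ^ i) 3 := IsCoprime.pow_left ⟨-1, 1, by norm_num⟩
    have e0 : 2 ^ (i + 1 + j) = 2 * 2 ^ (i + j) := by
      rw [show i + 1 + j = (i + j) + 1 by ring, pow_succ']
    obtain ⟨h, hh⟩ : ∃ h : ℤ → ℝ, h = fun y => f (2 * (b * (y - (t + 2))) + 1) := ⟨_, rfl⟩
    have hper : Per i h := by
      intro x y hxy
      rw [hh]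
      refine hf _ _ ?_
      obtain ⟨k, hk⟩ := hxy
      refine ⟨b * k, ?_⟩
      rw [pow_succ]
      linear_combination 2 * b * hk
    have hh1 : ∀ q : ℤ, h (3 * q + (t + 2)) = f (2 * q + 1) := by
      intro q
      rw [hh]
      refine hf _ _ ?_
      refine ⟨-(q * a), ?_⟩
      rw [pow_succ]
      linear_combination 2 * q * hab
    have hper0 : Per i (fun q => f (2 * q)) := by
      intro x y hxy
      refine hf _ _ ?_
      obtain ⟨k, hk⟩ := hxy
      refine ⟨k, ?_⟩
      rw [pow_succ]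
      linear_combination 2 * hk
    rw [e0, sum_range_two_mul]
    have h1 : ∀ q ∈ range (2 ^ (i + j)),
        f ((2 * q : ℕ) : ℤ) * g ((Td d)^[i + 1] ((2 * q : ℕ) : ℤ)) +
          f ((2 * q + 1 : ℕ) : ℤ) * g ((Td d)^[i + 1] ((2 * q + 1 : ℕ) : ℤ)) =
        f (2 * (q : ℤ)) * g ((Td d)^[i] (q : ℤ)) +
          h (3 * (q : ℤ) + (t + 2)) * g ((Td d)^[i] (3 * (q : ℤ) + (t + 2))) := by
      intro q _
      have e1 : Td d ((2 * q : ℕ) : ℤ) = q := by
        unfold Td
        push_cast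
        rw [if_pos (by omega)]
        omega
      have e2 : Td d ((2 * q + 1 : ℕ) : ℤ) = 3 * (q : ℤ) + (t + 2) := by
        unfold Td
        push_cast
        rw [if_neg (by omega)]
        omega
      rw [Function.iterate_succ_apply, Function.iterate_succ_apply, e1, e2, hh1]
      push_cast
      rfl
    rw [sum_congr rfl h1, sum_add_distrib, ih _ hper0,
      sum_affine (i + j) (t + 2) (fun y => h y * g ((Td d)^[i] y))
        ((hper.mono (Nat.le_add_right i j)).mul (hg.iter hd i)), ih h hper, ← add_mul]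
    congr 1
    rw [pow_succ', sum_range_two_mul, sum_add_distrib]
    congr 1
    rw [← sum_affine i (t + 2) h hper]
    exact sum_congr rfl fun q _ => by rw [hh1]; push_cast; rfl

open Classical in
/-- proportion of the classes modulo `2 ^ n` in `P` -/
noncomputable def pr (n : ℕ) (P : ℤ → Prop) : ℝ := (∑ r ∈ range (2 ^ n), if P (r : ℤ) then (1 : ℝ) else 0) / 2 ^ n

open Classical in
/-- indicator -/
noncomputable def ind (P : ℤ → Prop) : ℤ → ℝ := fun x => if P x then 1 else 0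

theorem ind_nonneg (P : ℤ → Prop) (x : ℤ) : 0 ≤ ind P x := by
  unfold ind
  split_ifs <;> norm_num

theorem pr_eq (n : ℕ) (P : ℤ → Prop) : pr n P = (∑ r ∈ range (2 ^ n), ind P (r : ℤ)) / 2 ^ n := rfl

theorem pr_nonneg (n : ℕ) (P : ℤ → Prop) : 0 ≤ pr n P := by
  rw [pr_eq]
  exact div_nonneg (sum_nonneg fun _ _ => ind_nonneg _ _) (by positivity)

/-- `P` depends on the class modulo `2 ^ n` only -/
def PP (n : ℕ) (P : ℤ → Prop) : Prop := ∀ x y : ℤ, (2 : ℤ) ^ n ∣ x - y → (P x ↔ P y)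

theorem PP.ind {n : ℕ} {P : ℤ → Prop} (h : PP n P) : Per n (ind P) := by
  intro x y hxy
  have := h x y hxy
  unfold Pool.Agent.Q26.PD.ind
  by_cases hx : P x
  · rw [if_pos hx, if_pos (this.1 hx)]
  · rw [if_neg hx, if_neg (fun h => hx (this.2 h))]

theorem oc_congr {d : ℤ} (hd : Odd d) {n : ℕ} {x y : ℤ} (h : (2 : ℤ) ^ n ∣ x - y) : oc d n x = oc d n y := by
  obtain ⟨k, hk⟩ := h
  have : x = y + 2 ^ n * k := by linarith
  rw [this, oc_period hd]

theorem pr_mul {d : ℤ} (hd : Odd d) {i j : ℕ} {P Q : ℤ → Prop} (hP : PP i P) (hQ : PP j Q) :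
    (∑ r ∈ range (2 ^ (i + j)), ind P (r : ℤ) * ind Q ((Td d)^[i] (r : ℤ))) / 2 ^ (i + j) = pr i P * pr j Q := by
  rw [indep hd j _ hQ.ind i _ hP.ind, pr_eq, pr_eq, pow_add]
  rw [div_mul_div_comm]

theorem pr_lift {d : ℤ} (hd : Odd d) {i n : ℕ} (h : i ≤ n) {P : ℤ → Prop} (hP : PP i P) : pr n P = pr i P := by
  obtain ⟨j, rfl⟩ := Nat.exists_eq_add_of_le h
  have h1 := pr_mul hd hP (j := j) (Q := fun _ => True) (fun _ _ _ => Iff.rfl)
  have h2 : pr j (fun _ => True) = 1 := by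
    unfold pr
    simp
  rw [h2, mul_one] at h1
  rw [← h1, pr_eq]
  simp [ind]

/-! ## Near visits -/

/-- many odd terms among the first `j` -/
def big (d : ℤ) (j : ℕ) (y : ℤ) : Prop := (2 : ℝ) ^ j ≤ 9 * 3 ^ oc d j y

theorem big_per {d : ℤ} (hd : Odd d) (j : ℕ) : PP j (big d j) := by
  intro x y hxy
  unfold big
  rw [oc_congr hd hxy]

/-- the decay rate -/
noncomputable def rho : ℝ := (1 + √3) / (2 * √2)

theorem rho_pos : 0 < rho := by
  unfold rho
  have hs2 : 0 < √2 := Real.sqrt_pos.2 (by norm_num)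
  have hs3 : 0 < √3 := Real.sqrt_pos.2 (by norm_num)
  positivity

theorem rho_lt : rho < 1 := Pool.Agent.Q237.PD.rho_lt

/-- Chernoff -/
theorem pr_big {d : ℤ} (hd : Odd d) (j : ℕ) : pr j (big d j) ≤ 3 * rho ^ j := by
  have hs2 : 0 < √2 := Real.sqrt_pos.2 (by norm_num)
  have hs3 : 0 < √3 := Real.sqrt_pos.2 (by norm_num)
  rw [pr_eq, div_le_iff₀ (by positivity)]
  have h1 : ∀ r ∈ range (2 ^ j), ind (big d j) (r : ℤ) ≤ 3 / √2 ^ j * √3 ^ oc d j (r : ℤ) := by
    intro r _
    unfold ind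
    split_ifs with h
    · rw [div_mul_eq_mul_div, le_div_iff₀ (by positivity), one_mul]
      refine le_of_sq_le_sq ?_ (by positivity)
      have e1 : (√2 ^ j) ^ 2 = 2 ^ j := by
        rw [← pow_mul, mul_comm, pow_mul, Real.sq_sqrt (by norm_num)]
      have e2 : (3 * √3 ^ oc d j (r : ℤ)) ^ 2 = 9 * 3 ^ oc d j (r : ℤ) := by
        rw [mul_pow, ← pow_mul, mul_comm (oc d j (r : ℤ)) 2, pow_mul √3, Real.sq_sqrt (by norm_num)]
        norm_num
      rw [e1, e2]
      exact h
    · positivity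
  refine (sum_le_sum h1).trans ?_
  rw [← mul_sum, sum_oc hd]
  apply le_of_eq
  unfold rho
  rw [div_pow, mul_pow]
  field_simp

/-- the size of the term `i` is near `A` -/
def near (d : ℤ) (A x : ℝ) (i : ℕ) (z : ℤ) : Prop :=
  A * 2 ^ i ≤ 3 * x * 3 ^ oc d i z ∧ x * 3 ^ oc d i z ≤ 3 * A * 2 ^ i

theorem near_per {d : ℤ} (hd : Odd d) (A x : ℝ) (i : ℕ) : PP i (near d A x i) := by
  intro y z hyz
  unfold near
  rw [oc_congr hd hyz]

theorem near_near {d : ℤ} {A x : ℝ} (hA : 0 < A) {i j : ℕ} {z : ℤ} (h1 : near d A x i z)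
    (h2 : near d A x (i + j) z) : big d j ((Td d)^[i] z) := by
  unfold big
  have h3 := h2.1
  rw [oc_add, pow_add, pow_add] at h3
  have h4 : (0 : ℝ) < 3 ^ oc d j ((Td d)^[i] z) := by positivity
  have h5 : 3 * x * (3 ^ oc d i z * 3 ^ oc d j ((Td d)^[i] z)) ≤
      9 * 3 ^ oc d j ((Td d)^[i] z) * (A * 2 ^ i) := by
    calc 3 * x * (3 ^ oc d i z * 3 ^ oc d j ((Td d)^[i] z)) =
          3 * 3 ^ oc d j ((Td d)^[i] z) * (x * 3 ^ oc d i z) := by ring
      _ ≤ 3 * 3 ^ oc d j ((Td d)^[i] z) * (3 * A * 2 ^ i) :=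
          mul_le_mul_of_nonneg_left h1.2 (by positivity)
      _ = _ := by ring
  have h6 : (2 : ℝ) ^ j * (A * 2 ^ i) ≤ 9 * 3 ^ oc d j ((Td d)^[i] z) * (A * 2 ^ i) := by
    calc (2 : ℝ) ^ j * (A * 2 ^ i) = A * (2 ^ i * 2 ^ j) := by ring
      _ ≤ _ := h3.trans h5
  exact le_of_mul_le_mul_right h6 (by positivity)

/-- first near visit -/
def fst (d : ℤ) (A x : ℝ) (i : ℕ) (z : ℤ) : Prop := near d A x i z ∧ ∀ i' < i, ¬ near d A x i' z

theorem fst_per {d : ℤ} (hd : Odd d) (A x : ℝ) (i : ℕ) : PP i (fst d A x i) := by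
  intro y z hyz
  unfold fst
  have h1 : ∀ i' ≤ i, (near d A x i' y ↔ near d A x i' z) := fun i' hi' =>
    near_per hd A x i' y z ((pow_dvd_pow 2 hi').trans hyz)
  rw [h1 i le_rfl]
  constructor
  · rintro ⟨h2, h3⟩
    exact ⟨h2, fun i' hi' h => h3 i' hi' ((h1 i' hi'.le).2 h)⟩
  · rintro ⟨h2, h3⟩
    exact ⟨h2, fun i' hi' h => h3 i' hi' ((h1 i' hi'.le).1 h)⟩

/-- total proportion of the first visits -/
theorem sum_fst {d : ℤ} (hd : Odd d) (A x : ℝ) (N : ℕ) :
    ∑ i ∈ range (N + 1), pr i (fst d A x i) ≤ 1 := by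
  have h1 : ∑ i ∈ range (N + 1), pr i (fst d A x i) = ∑ i ∈ range (N + 1), pr N (fst d A x i) :=
    sum_congr rfl fun i hi => (pr_lift hd (by rw [mem_range] at hi; omega) (fst_per hd A x i)).symm
  rw [h1]
  simp only [pr_eq]
  rw [← sum_div, div_le_one (by positivity), sum_comm]
  have h2 : ∀ r ∈ range (2 ^ N), ∑ i ∈ range (N + 1), ind (fst d A x i) (r : ℤ) ≤ 1 := by
    intro r _
    by_cases h : ∃ i, fst d A x i (r : ℤ)
    · obtain ⟨i, hi⟩ := h
      have h3 : ∀ i' ∈ range (N + 1), i' ≠ i → ind (fst d A x i') (r : ℤ) = 0 := by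
        intro i' _ hne
        unfold ind
        rw [if_neg]
        intro h'
        rcases lt_or_gt_of_ne hne with hlt | hgt
        · exact hi.2 i' hlt h'.1
        · exact h'.2 i hgt hi.1
      by_cases hiN : i ∈ range (N + 1)
      · rw [sum_eq_single_of_mem i hiN h3]
        unfold ind
        rw [if_pos hi]
      · rw [sum_eq_zero]
        · norm_num
        · intro i' hi'
          exact h3 i' hi' (fun he => hiN (he ▸ hi'))
    · push Not at h
      rw [sum_eq_zero]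
      · norm_num
      · intro i _
        unfold ind
        rw [if_neg (h i)]
  refine (sum_le_sum h2).trans ?_
  simp

/-- renewal inequality -/
theorem near_le {d : ℤ} (hd : Odd d) {A : ℝ} (hA : 0 < A) (x : ℝ) (i : ℕ) :
    pr i (near d A x i) ≤ ∑ i' ∈ range (i + 1), pr i' (fst d A x i') * pr (i - i') (big d (i - i')) := by
  have h1 : ∀ i' ∈ range (i + 1), pr i' (fst d A x i') * pr (i - i') (big d (i - i')) =
      (∑ r ∈ range (2 ^ i), ind (fst d A x i') (r : ℤ) * ind (big d (i - i')) ((Td d)^[i'] (r : ℤ))) / 2 ^ i := by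
    intro i' hi'
    rw [mem_range] at hi'
    have h2 : i = i' + (i - i') := by omega
    rw [← pr_mul hd (fst_per hd A x i') (big_per hd (i - i')), ← h2]
  rw [sum_congr rfl h1, ← sum_div, pr_eq, sum_comm]
  refine div_le_div_of_nonneg_right (sum_le_sum fun r _ => ?_) (by positivity)
  have hnn : ∀ i' ∈ range (i + 1), 0 ≤ ind (fst d A x i') (r : ℤ) * ind (big d (i - i')) ((Td d)^[i'] (r : ℤ)) :=
    fun i' _ => mul_nonneg (ind_nonneg _ _) (ind_nonneg _ _)
  by_cases h : near d A x i (r : ℤ)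
  · classical
    have hex : ∃ i', near d A x i' (r : ℤ) := ⟨i, h⟩
    set i' := Nat.find hex with hi'
    have h3 : near d A x i' (r : ℤ) := Nat.find_spec hex
    have h4 : i' ≤ i := Nat.find_min' hex h
    have h5 : fst d A x i' (r : ℤ) := ⟨h3, fun k hk => Nat.find_min hex hk⟩
    have h6 : big d (i - i') ((Td d)^[i'] (r : ℤ)) := by
      refine near_near hA h3 ?_
      rw [show i' + (i - i') = i by omega]
      exact h
    refine le_trans ?_ (single_le_sum hnn (mem_range.2 (show i' < i + 1 by omega)))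
    unfold ind
    rw [if_pos h, if_pos h5, if_pos h6]
    norm_num
  · have : ind (near d A x i) (r : ℤ) = 0 := by
      unfold ind
      rw [if_neg h]
    rw [this]
    exact sum_nonneg hnn

theorem geom_le (n : ℕ) : ∑ j ∈ range n, 3 * rho ^ j ≤ 3 / (1 - rho) := by
  have h1 : 0 < 1 - rho := by have := rho_lt; linarith
  rw [← mul_sum, le_div_iff₀ h1, mul_assoc, geom_sum_mul_neg]
  have : 0 ≤ rho ^ n := pow_nonneg rho_pos.le n
  linarith

/-- total mass of the near visits -/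
theorem sum_near {d : ℤ} (hd : Odd d) {A : ℝ} (hA : 0 < A) (x : ℝ) (N : ℕ) :
    ∑ i ∈ range (N + 1), pr i (near d A x i) ≤ 3 / (1 - rho) := by
  have h1 : 0 < 1 - rho := by have := rho_lt; linarith
  calc ∑ i ∈ range (N + 1), pr i (near d A x i)
      ≤ ∑ i ∈ range (N + 1), ∑ i' ∈ range (i + 1), pr i' (fst d A x i') * pr (i - i') (big d (i - i')) :=
        sum_le_sum fun i _ => near_le hd hA x i
    _ = ∑ i' ∈ range (N + 1), ∑ i ∈ Ico i' (N + 1), pr i' (fst d A x i') * pr (i - i') (big d (i - i')) := by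
        apply sum_comm'
        intro a b
        simp only [mem_range, mem_Ico]
        omega
    _ ≤ ∑ i' ∈ range (N + 1), pr i' (fst d A x i') * (3 / (1 - rho)) := by
        refine sum_le_sum fun i' _ => ?_
        rw [← mul_sum]
        refine mul_le_mul_of_nonneg_left ?_ (pr_nonneg _ _)
        rw [sum_Ico_eq_sum_range]
        refine le_trans (sum_le_sum fun j _ => ?_) (geom_le (N + 1 - i'))
        rw [Nat.add_sub_cancel_left]
        exact pr_big hd j
    _ = (∑ i' ∈ range (N + 1), pr i' (fst d A x i')) * (3 / (1 - rho)) := by rw [sum_mul]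
    _ ≤ 1 * (3 / (1 - rho)) := mul_le_mul_of_nonneg_right (sum_fst hd A x N) (by positivity)
    _ = 3 / (1 - rho) := one_mul _

end Pool.Agent.Q26.PD
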