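import Pool.Agent.Q216.PD.Stm

/-!
# Project PD (helper216), job POW
-/

set_option autoImplicit false

universe u v

open Metric Set Filter Topology
open Pool.Agent.TH60.FP Pool.Agent.Y34.HB Pool.Agent.Y34.EL Pool.Agent.Q216.PD

namespace Pool.Agent.Q26.PD

/-- finitely many points come back -/
lemma pow_fin {X : Type u} [MetricSpace X] [ProperSpace X] {G : Type v} [Group G]
    [MulAction G X] [IsIsometricSMul G X] (g : G) (p : X) (hp : g • p = p) (m i : ℕ)
    (x : Fin m → X) {ε : ℝ} (hε : 0 < ε) :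
    ∃ n : ℕ, i ≤ n ∧ ∀ j, dist (g ^ n • x j) (x j) < ε := by
  have hpk : ∀ k : ℕ, g ^ k • p = p := by
    intro k
    induction k with
    | zero => rw [pow_zero, one_smul]
    | succ k ih => rw [pow_succ, mul_smul, hp, ih]
  let u : ℕ → Fin m → X := fun k j => g ^ k • x j
  have hb : ∀ k, u k ∈ closedBall (fun _ => p : Fin m → X) (dist x (fun _ => p)) := by
    intro k
    rw [mem_closedBall, dist_pi_le_iff dist_nonneg]
    intro j
    change dist (g ^ k • x j) p ≤ _
    calc dist (g ^ k • x j) p = dist (g ^ k • x j) (g ^ k • p) := by rw [hpk]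
      _ = dist (x j) p := dist_smul _ _ _
      _ ≤ _ := dist_le_pi_dist x (fun _ => p) j
  obtain ⟨a, -, φ, hφ, ha⟩ := tendsto_subseq_of_bounded isBounded_closedBall hb
  have hc := ha.cauchySeq
  rw [Metric.cauchySeq_iff] at hc
  obtain ⟨K, hK⟩ := hc ε hε
  have h1 := hK (K + i) (by omega) K le_rfl
  have h2 : φ K + i ≤ φ (K + i) := by
    rw [add_comm K i, add_comm (φ K) i]
    exact hφ.add_le_nat i K
  refine ⟨φ (K + i) - φ K, by omega, fun j => ?_⟩
  calc dist (g ^ (φ (K + i) - φ K) • x j) (x j) =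
      dist (g ^ φ K • g ^ (φ (K + i) - φ K) • x j) (g ^ φ K • x j) := (dist_smul _ _ _).symm
    _ = dist (u (φ (K + i)) j) (u (φ K) j) := by
      rw [← mul_smul, ← pow_add, show φ K + (φ (K + i) - φ K) = φ (K + i) by omega]
    _ ≤ dist (u (φ (K + i))) (u (φ K)) := dist_le_pi_dist _ _ j
    _ < ε := h1

/-- JOB POW -/
theorem t_pow : S_POW.{u, v} := by
  intro X _ _ G _ _ _ g p hp
  have : Nonempty X := ⟨p⟩
  have h1 : ∀ i : ℕ, ∃ n : ℕ, i ≤ n ∧ ∀ j : Fin (i + 1),
      dist (g ^ n • TopologicalSpace.denseSeq X j) (TopologicalSpace.denseSeq X j) < 1 / ((i : ℝ) + 1) :=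
    fun i => pow_fin g p hp (i + 1) i (fun j => TopologicalSpace.denseSeq X j) (by positivity)
  choose n hn hd using h1
  refine ⟨n, hn, fun x => ?_⟩
  rw [Metric.tendsto_atTop]
  intro ε hε
  obtain ⟨j, hj⟩ := (TopologicalSpace.denseRange_denseSeq X).exists_dist_lt x
    (show (0 : ℝ) < ε / 4 by positivity)
  obtain ⟨N, hN⟩ := exists_nat_one_div_lt (show (0 : ℝ) < ε / 2 by positivity)
  refine ⟨max j N, fun i hi => ?_⟩
  have hi1 : j < i + 1 := by
    have := le_trans (le_max_left j N) hi
    omega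
  have h2 := hd i ⟨j, hi1⟩
  have h3 : 1 / ((i : ℝ) + 1) < ε / 2 := by
    refine lt_of_le_of_lt ?_ hN
    apply one_div_le_one_div_of_le (by positivity)
    have : (N : ℝ) ≤ i := by exact_mod_cast le_trans (le_max_right j N) hi
    linarith
  have h4 : dist (g ^ n i • x) (g ^ n i • TopologicalSpace.denseSeq X j) =
      dist x (TopologicalSpace.denseSeq X j) := dist_smul _ _ _
  have h5 : dist (TopologicalSpace.denseSeq X j) x < ε / 4 := by rwa [dist_comm]
  calc dist (g ^ n i • x) x ≤ dist (g ^ n i • x) (g ^ n i • TopologicalSpace.denseSeq X j) +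
        dist (g ^ n i • TopologicalSpace.denseSeq X j) x := dist_triangle _ _ _
    _ ≤ dist (g ^ n i • x) (g ^ n i • TopologicalSpace.denseSeq X j) +
        (dist (g ^ n i • TopologicalSpace.denseSeq X j) (TopologicalSpace.denseSeq X j) +
        dist (TopologicalSpace.denseSeq X j) x) := by
          gcongr
          exact dist_triangle _ _ _
    _ < ε := by
      rw [h4]
      have h6 : dist (g ^ n i • TopologicalSpace.denseSeq X j) (TopologicalSpace.denseSeq X j) < ε / 2 :=
        lt_trans h2 h3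
      linarith

end Pool.Agent.Q26.PD
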