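import Pool.Agent.Q216.PD.Stm

/-!
# Project PD (helper216), job REG
-/

set_option autoImplicit false

universe u v

open Metric Set Filter Topology
open Pool.Agent.TH60.FP Pool.Agent.Y34.HB Pool.Agent.Y34.EL Pool.Agent.Q216.PD

namespace Pool.Agent.Q26.PD

/-- powers translate along the axis -/
lemma axis_zpow {X : Type u} [MetricSpace X] {G : Type v} [Group G] [MulAction G X] {g : G}
    {τ : ℝ} {c : ℝ → X} (h : Axis g τ c) (i : ℤ) (t : ℝ) : g ^ i • c t = c (t + i * τ) := by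
  have hn : ∀ (n : ℕ) (s : ℝ), g ^ n • c s = c (s + n * τ) := by
    intro n
    induction n with
    | zero => intro s; simp
    | succ n ih =>
      intro s
      rw [pow_succ, mul_smul, h.2, ih]
      congr 1
      push_cast
      ring
  obtain ⟨n, rfl | rfl⟩ := i.eq_nat_or_neg
  · rw [zpow_natCast, hn]
    simp
  · rw [zpow_neg, zpow_natCast, inv_smul_eq_iff, hn]
    congr 1
    push_cast
    ring

/-- JOB REG -/
theorem t_reg (hcl : X_CLOSE.{u, v}) : S_REG.{u, v} := by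
  intro X₁ X₂ _ _ G _ _ _ hG g τ₁ τ₂ c₁ c₂ h1 h2 hc1 hc2
  obtain ⟨τ, hτ⟩ : ∃ τ : ℝ, τ = √(τ₁ ^ 2 + τ₂ ^ 2) := ⟨_, rfl⟩
  have hpos : 0 < τ := by rw [hτ]; positivity
  have hsq : τ ^ 2 = τ₁ ^ 2 + τ₂ ^ 2 := by rw [hτ, Real.sq_sqrt (by positivity)]
  have hd1 : ∀ s t, dist (c₁ s) (c₁ t) ^ 2 = (s - t) ^ 2 := by
    intro s t
    rw [hc1.1.dist_eq, Real.dist_eq, sq_abs]
  have hd2 : ∀ s t, dist (c₂ s) (c₂ t) ^ 2 = (s - t) ^ 2 := by
    intro s t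
    rw [hc2.1.dist_eq, Real.dist_eq, sq_abs]
  refine hcl (Pr X₁ X₂) G (fun x y => ⟨c₁ ((τ₁ * x - τ₂ * y) / τ), c₂ ((τ₂ * x + τ₁ * y) / τ)⟩) g
    τ 0 ⟨hG.geo.proper, hG.geo.isom, hG.geo.disc, hG.geo.cc, hG.geo.cn, ?_, hpos, ?_⟩
  · intro x y x' y'
    rw [dist_sq]
    change dist (c₁ _) (c₁ _) ^ 2 + dist (c₂ _) (c₂ _) ^ 2 = _
    rw [hd1, hd2]
    have h3 : ((τ₁ * x - τ₂ * y) / τ - (τ₁ * x' - τ₂ * y') / τ) ^ 2 +
        ((τ₂ * x + τ₁ * y) / τ - (τ₂ * x' + τ₁ * y') / τ) ^ 2 =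
        (τ₁ ^ 2 + τ₂ ^ 2) * ((x - x') ^ 2 + (y - y') ^ 2) / τ ^ 2 := by
      field_simp
      ring
    rw [h3, ← hsq]
    field_simp
  · intro i x y
    refine le_of_eq ?_
    rw [dist_eq_zero]
    refine Pr.ext ?_ ?_
    · change g ^ i • c₁ _ = c₁ _
      rw [axis_zpow hc1]
      congr 1
      field_simp
      ring
    · change g ^ i • c₂ _ = c₂ _
      rw [axis_zpow hc2]
      congr 1
      field_simp
      ring

end Pool.Agent.Q26.PD
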